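import Mathlib
import Pool.Agent.N843.BB.Frob
import Pool.Agent.N843.CK.Nf
import Pool.Agent.Results.MP_ec4e4b_nt.AllWeightsOverK

/-!
# The Beilinson–Bloch conjecture for the quadratic twists of an intersection of two quadrics over
# `ℚ(√-7)`: exact natural density

`K = ℚ(√-7)` with the ring of integers `ℤ[ω]`, `ω² = ω - 2`. For `D` in `ℤ[ω]` let `E_D` be the
quadratic twist by `D` of `X_0(49)` over `K`. For `D`, `D'` in `ℤ[ω]` we consider the smooth complete
intersections `X ⊂ P⁵` of two quadrics over `K` which are the base loci of the pencils with the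
discriminant curve (up to squares)
`C : y² = (9 + 3 ω) D (D D' x² - 1) (D D' x² + ω⁴) (D D' x² - ω⁸)`
of genus two. The Jacobian `J` of `C` is isogenous to `E_D × E_{D'}`; for `D = D'` the curves `C` are
up to isomorphism the quadratic twists by `D` of `y² = (9 + 3 ω) (x² - 1) (x² + ω⁴) (x² - ω⁸)`, and
there is a pencil for every `D`. Here `CH²(X)_0 ⊗ ℚ = J(K) ⊗ ℚ` (`CH^i(X)_0 ⊗ ℚ = 0` for `i ≠ 2`), and
`H³(X)` is `H¹(J)(-1)`: the conjecture for `X` and `i = 2` says that the rank of `E_D(K) × E_{D'}(K)` is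
the order of `L(H³(X), s)` at `s = 2`.

Let `D` be good if it is squarefree, `D ≡ 1 mod 8`, `√-7 ∤ D`, `E_D(K)` is finite and `Ш(E_D/K)` has no
element of order two.
* For all good `D`, `D'` and **all** `X` as above the conjecture is true and both sides are `0`: `E_D(K)`
  and `E_{D'}(K)` are finite, and `L(H³(X), s)`, which is defined by the numbers of points of `X` over all
  finite extensions of all residue fields of `K`, is entire and not zero at `s = 2`.
* The good `D` have the natural density **exactly** `c2 = ∏_{i ≥ 1} (1 - 2^(-i)) = 0.288…` among all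
  squarefree `D ≡ 1 mod 8` in `ℤ[ω]` which are prime to `√-7`, ordered by the norm; so this is the
  proportion of the quadratic twists `X_D` (`D = D'`) for which the conjecture is proved here. A `D` of the
  family is good if and only if it has no factorisation of a certain kind in `ℤ[ω]`.

The matrices and the number of points of the base locus of a pencil of quadrics over a finite field are
treated in `Pool/Agent/N844/QP` (helper844, see `MP_b8021b_nt/QuadricPencilTowers` for totally real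
fields), the twists of `X_0(49)` in `MP_ec4e4b_nt/AllWeightsOverK`.
-/

set_option autoImplicit false

namespace Pool.Agent.Results.MP_0b9e0b_ag.QuadricPencilsOverK

open Pool.Agent.Results.MP_787500_nt.AllWeightsMultiquadraticX49 (QBar OK emb K gen)
open Pool.Agent.Results.MP_ec4e4b_nt.AllWeightsOverK (twist RankZeroShaTwo norm Adm IsGood
  Factorisation count HasDensity c2)
open WeierstrassCurve IsDedekindDomain Filter Matrix
open scoped LinearAlgebra.Projectivization

/-! ### The intersections of two quadrics -/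

/-- The element `ω` of `ℤ[ω]`. -/
def om : OK := ⟨0, 1⟩

/-- The pencils of quadrics `x A - B` in `P⁵` over `ℤ[ω]` with the discriminant
`- det (x A - B) = (9 + 3 ω) D m² (D D' x² - 1) (D D' x² + ω⁴) (D D' x² - ω⁸)`. -/
structure IsPencil (D D' m : OK) (A B : Matrix (Fin 6) (Fin 6) OK) : Prop where
  symA : A.IsSymm
  symB : B.IsSymm
  disc : ∀ x : OK, -(x • A - B).det = (9 + 3 * om) * D * m ^ 2 * ((D * D' * x ^ 2 - 1) *
    (D * D' * x ^ 2 + om ^ 4) * (D * D' * x ^ 2 - om ^ 8))

/-- The quadratic form of a matrix. -/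
def qf {R : Type*} [CommRing R] {N : ℕ} (M : Matrix (Fin N) (Fin N) R) (y : Fin N → R) : R :=
  y ⬝ᵥ (M *ᵥ y)

/-- The base locus `X` of the pencil is smooth over the field `k` (the Jacobian criterion at the points
over `k`); `k` is a field over `ℤ[ω]` by `φ`. -/
def Smooth (A B : Matrix (Fin 6) (Fin 6) OK) {k : Type} [Field k] (φ : OK →+* k) : Prop :=
  ∀ y : Fin 6 → k, y ≠ 0 → qf (A.map φ) y = 0 → qf (B.map φ) y = 0 →
    LinearIndependent k ![A.map φ *ᵥ y, B.map φ *ᵥ y]

/-- The number of points over `k` of the base locus `X ⊂ P⁵` of the pencil. -/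
noncomputable def numP (A B : Matrix (Fin 6) (Fin 6) OK) {k : Type} [Field k] (φ : OK →+* k) : ℕ :=
  Nat.card {P : ℙ k (Fin 6 → k) // qf (A.map φ) P.rep = 0 ∧ qf (B.map φ) P.rep = 0}

/-- The number `N(P)` of elements of the residue field. -/
noncomputable def nP (P : HeightOneSpectrum OK) : ℕ := Nat.card (OK ⧸ P.asIdeal)

/-- The reduction modulo `P`, to an extension `k` of the residue field. -/
noncomputable def red (P : HeightOneSpectrum OK) (k : Type) [Field k] [Algebra (OK ⧸ P.asIdeal) k] :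
    OK →+* k :=
  (algebraMap (OK ⧸ P.asIdeal) k).comp (Ideal.Quotient.mk P.asIdeal)

/-- `α` are the eigenvalues of Frobenius at `P` on `H³(X)`: the number of points of `X` over every
extension `k` of degree `r` of the residue field is `1 + q^r + q^(2r) + q^(3r) - ∑ α_j^r`, `q = N(P)`. -/
def IsFrob (A B : Matrix (Fin 6) (Fin 6) OK) (P : HeightOneSpectrum OK) (α : Fin 4 → ℂ) : Prop :=
  (∀ j, ‖α j‖ = (nP P : ℝ) ^ ((3 : ℝ) / 2)) ∧
    ∀ (k : Type) [Field k] [Fintype k] [Algebra (OK ⧸ P.asIdeal) k] (r : ℕ),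
      Fintype.card k = nP P ^ r →
      (numP A B (red P k) : ℂ) =
        1 + (nP P : ℂ) ^ r + (nP P : ℂ) ^ (2 * r) + (nP P : ℂ) ^ (3 * r) - ∑ j, α j ^ r

/-- `L` is entire and is, for `Re s > 5/2`, the Euler product of `∏_j (1 - α_j N(P)^(-s))⁻¹` over the
primes `P` of `K` not dividing `M`, where `α_j` are the eigenvalues of Frobenius at `P` on `H³(X)`. -/
def IsL (A B : Matrix (Fin 6) (Fin 6) OK) (M : OK) (L : ℂ → ℂ) : Prop :=
  Differentiable ℂ L ∧ ∃ α : HeightOneSpectrum OK → Fin 4 → ℂ,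
    (∀ P, M ∉ P.asIdeal → IsFrob A B P (α P)) ∧
    ∀ s : ℂ, (5 : ℝ) / 2 < s.re →
      HasProd (fun P : HeightOneSpectrum OK => open Classical in
        if M ∈ P.asIdeal then 1 else ∏ j, (1 - α P j * (nP P : ℂ) ^ (-s))⁻¹) (L s)

/-- The conjecture for the intersections of two quadrics of the pair `(D, D')`, with rank and order
zero: `E_D(K)` and `E_{D'}(K)` are finite, the base loci `X` of all the pencils are smooth over the
fields of characteristic zero and over the fields in which `42 D D' m` is not zero, and the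
`L`-function of `H³(X)`, without the primes dividing `42 D D' m`, is entire and not zero at `s = 2`. -/
def BeilinsonBloch (w : QBar) (D D' : OK) : Prop :=
  Finite (twist (emb (gen w) D)).toAffine.Point ∧ Finite (twist (emb (gen w) D')).toAffine.Point ∧
    ∀ m : OK, m ≠ 0 → ∀ A B : Matrix (Fin 6) (Fin 6) OK, IsPencil D D' m A B →
      (∀ (k : Type) [Field k] [CharZero k] (φ : OK →+* k), Smooth A B φ) ∧
      (∀ (k : Type) [Field k] (φ : OK →+* k), φ (42 * (D * D' * m)) ≠ 0 → Smooth A B φ) ∧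
      ∃ L : ℂ → ℂ, IsL A B (42 * (D * D' * m)) L ∧ L 2 ≠ 0

/-- `(9 + 3 ω) D² y₀² + D (y₁² + y₂² + y₃²) + D² y₄² - y₅²` -/
def exA (D : OK) : Matrix (Fin 6) (Fin 6) OK :=
  !![(9 + 3 * om) * D ^ 2, 0, 0, 0, 0, 0;
     0, D, 0, 0, 0, 0;
     0, 0, D, 0, 0, 0;
     0, 0, 0, D, 0, 0;
     0, 0, 0, 0, D ^ 2, 0;
     0, 0, 0, 0, 0, -1]

/-- `(9 + 3 ω) D y₀² - y₁² + ω⁴ y₂² - ω⁴ y₃² + 2 ω² y₄ y₅` -/
def exB (D : OK) : Matrix (Fin 6) (Fin 6) OK :=
  !![(9 + 3 * om) * D, 0, 0, 0, 0, 0;
     0, -1, 0, 0, 0, 0;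
     0, 0, om ^ 4, 0, 0, 0;
     0, 0, 0, -om ^ 4, 0, 0;
     0, 0, 0, 0, 0, om ^ 2;
     0, 0, 0, 0, om ^ 2, 0]

/-! ### The proof -/

section proof

open Pool.Agent.N843.K (FO)

lemma ex_pencil (D : OK) : IsPencil D D 1 (exA D) (exB D) where
  symA := by
    unfold exA
    refine Matrix.ext fun i j => ?_
    fin_cases i <;> fin_cases j <;> rfl
  symB := by
    unfold exB
    refine Matrix.ext fun i j => ?_
    fin_cases i <;> fin_cases j <;> rfl
  disc := by
    intro x
    unfold exA exB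
    generalize om = o
    simp [Matrix.det_succ_row_zero, Fin.sum_univ_succ, Fin.succAbove]
    ring

lemma map_ne {k : Type} [Field k] [CharZero k] (φ : OK →+* k) {x : OK} (hx : x ≠ 0) : φ x ≠ 0 := by
  intro h
  have h1 := congrArg φ (Pool.Agent.N843.K.mul_cjO x)
  rw [map_mul, h, zero_mul, map_intCast] at h1
  have h2 : Pool.Agent.N843.K.nm x = 0 := by exact_mod_cast h1.symm
  exact (Pool.Agent.N843.K.nm_pos hx).ne' h2

lemma smooth_of {D D' m : OK} {A B : Matrix (Fin 6) (Fin 6) OK} (h : IsPencil D D' m A B)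
    {k : Type} [Field k] (φ : OK →+* k) (h0 : φ (42 * (D * D' * m)) ≠ 0) : Smooth A B φ := by
  have n0 : ∀ x : OK, x ∣ 42 * (D * D' * m) → φ x ≠ 0 := by
    intro x hx h1
    obtain ⟨c, hc⟩ := hx
    apply h0
    rw [hc, map_mul, h1, zero_mul]
  have k2 : (2 : k) ≠ 0 := by
    have := n0 2 ⟨21 * (D * D' * m), by ring⟩
    rwa [map_ofNat] at this
  have k3 : (3 : k) ≠ 0 := by
    have := n0 3 ⟨14 * (D * D' * m), by ring⟩
    rwa [map_ofNat] at this
  have k7 : (7 : k) ≠ 0 := by
    have := n0 7 ⟨6 * (D * D' * m), by ring⟩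
    rwa [map_ofNat] at this
  have h' : Pool.Agent.N843.BB.IsPencil D D' m A B := ⟨h.symA, h.symB, h.disc⟩
  intro y hy h6 h7
  exact h'.smooth (Pool.Agent.N843.BB.ok_map φ k2 k3 k7) (n0 D ⟨42 * (D' * m), by ring⟩)
    (n0 D' ⟨42 * (D * m), by ring⟩) (n0 m ⟨42 * (D * D'), by ring⟩) hy h6 h7

lemma good_ne {w : QBar} {D : OK} (h : IsGood w D) : D ≠ 0 := h.adm.squarefree.ne_zero

lemma bb_of {w : QBar} (hw : w ^ 2 = w - 2) {D D' : OK} (hD : IsGood w D) (hD' : IsGood w D') :
    BeilinsonBloch w D D' := by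
  refine ⟨hD.rank.1, hD'.rank.1, fun m hm A B h => ⟨fun k _ _ φ => ?_, fun k _ φ h0 => ?_, ?_⟩⟩
  · refine smooth_of h φ (map_ne φ ?_)
    exact mul_ne_zero (by norm_num) (mul_ne_zero (mul_ne_zero (good_ne hD) (good_ne hD')) hm)
  · exact smooth_of h φ h0
  · have h' : Pool.Agent.N843.BB.IsPencil D D' m A B := ⟨h.symA, h.symB, h.disc⟩
    have f1 : FO D := (Pool.Agent.Results.MP_ec4e4b_nt.AllWeightsOverK.good_iff hw).1 hD
    have f2 : FO D' := (Pool.Agent.Results.MP_ec4e4b_nt.AllWeightsOverK.good_iff hw).1 hD'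
    obtain ⟨α, h1, L, h2, h3, h4⟩ := Pool.Agent.N843.BB.main f1 f2 (good_ne hD) (good_ne hD') hm h'
    exact ⟨L, ⟨h2, α, h1, h3⟩, h4⟩

end proof

/-- **The Beilinson–Bloch conjecture for the quadratic twists of an intersection of two quadrics over
`ℚ(√-7)`, and the natural density of the good `D`.** -/
theorem result : ∀ w : QBar, w ^ 2 = w - 2 →
    (∀ D D' : OK, IsGood w D → IsGood w D' → BeilinsonBloch w D D') ∧
    (∀ D : OK, IsPencil D D 1 (exA D) (exB D)) ∧
    (∀ D : OK, Adm D → (IsGood w D ↔ ¬ Factorisation D)) ∧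
    HasDensity (IsGood w) c2 ∧
    (∃ δ : ℝ, 0 < δ ∧ ∀ᶠ X : ℕ in atTop, δ * X ≤ (count (IsGood w) X : ℝ)) ∧
    0.288 < c2 ∧ c2 < 0.289 := by
  intro w hw
  obtain ⟨-, -, h3, h4, h5, h6, h7⟩ :=
    Pool.Agent.Results.MP_ec4e4b_nt.AllWeightsOverK.result w hw
  refine ⟨fun D D' h h' => bb_of hw h h', ex_pencil, fun D hD => ?_, h4, h5, h6, h7⟩
  rw [← h3 D hD]
  exact ⟨fun h => h.rank, fun h => ⟨hD, h⟩⟩

end Pool.Agent.Results.MP_0b9e0b_ag.QuadricPencilsOverK
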